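import Pool.Agent.helper36.PP.SpecC

/-!
# pp:STEP2: one more level in Phase 2
-/

set_option autoImplicit false

open Complex Metric Set Filter Topology MeasureTheory MPS

noncomputable section

namespace PPS

/-- gluing of branches on an increasing family of balls -/
theorem STEP2_glue (hLUN : LUN_stmt) (f : Polynomial ℂ) (F : ℂ → ℂ) (x v : ℂ) (S : Set ℝ)
    (hSne : S.Nonempty) (hSb : BddAbove S) (hpos : ∀ r ∈ S, 0 < r)
    (hbr : ∀ r ∈ S, Br f F (ball x r) x v) :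
    Br f F (ball x (sSup S)) x v := by
  classical
  choose! h hd hv hr using hbr
  have hagree : ∀ r₁ ∈ S, ∀ r₂ ∈ S, r₁ ≤ r₂ → EqOn (h r₁) (h r₂) (ball x r₁) := by
    intro r₁ h1 r₂ h2 h12
    have hsub : ball x r₁ ⊆ ball x r₂ := ball_subset_ball h12
    refine hLUN f (ball x r₁) (h r₁) (h r₂) x isOpen_ball (convex_ball _ _).isPreconnected
      (hd r₁ h1).continuousOn ((hd r₂ h2).continuousOn.mono hsub) ?_ ?_ (mem_ball_self (hpos r₁ h1))
      ?_
    · intro w hw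
      rw [(hr r₁ h1 w hw).1, (hr r₂ h2 w (hsub hw)).1]
    · intro w hw
      exact (hr r₁ h1 w hw).2
    · rw [hv r₁ h1, hv r₂ h2]
  have hag : ∀ r₁ ∈ S, ∀ r₂ ∈ S, ∀ w, w ∈ ball x r₁ → w ∈ ball x r₂ → h r₁ w = h r₂ w := by
    intro r₁ h1 r₂ h2 w hw1 hw2
    rcases le_total r₁ r₂ with h12 | h12
    · exact hagree r₁ h1 r₂ h2 h12 hw1
    · exact (hagree r₂ h2 r₁ h1 h12 hw2).symm
  have hex : ∀ w ∈ ball x (sSup S), ∃ r ∈ S, w ∈ ball x r := by
    intro w hw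
    rw [mem_ball] at hw
    obtain ⟨r, hr1, hr2⟩ := exists_lt_of_lt_csSup hSne hw
    exact ⟨r, hr1, mem_ball.mpr hr2⟩
  choose! ρ hρS hρw using hex
  have heq : ∀ r ∈ S, ∀ w ∈ ball x r, w ∈ ball x (sSup S) → h (ρ w) w = h r w := by
    intro r h1 w hw hw'
    exact hag _ (hρS w hw') r h1 w (hρw w hw') hw
  refine ⟨fun w => h (ρ w) w, ?_, ?_, ?_⟩
  · intro w hw
    have h1 := hρS w hw
    have h2 := hρw w hw
    have h3 : DifferentiableAt ℂ (h (ρ w)) w := (hd _ h1).differentiableAt (isOpen_ball.mem_nhds h2)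
    have h4 : (fun w' => h (ρ w') w') =ᶠ[𝓝 w] h (ρ w) := by
      filter_upwards [isOpen_ball.mem_nhds h2, isOpen_ball.mem_nhds hw] with w' hw1 hw2
      exact heq _ h1 w' hw1 hw2
    exact (h3.congr_of_eventuallyEq h4).differentiableWithinAt
  · obtain ⟨r, h1⟩ := hSne
    have hx : x ∈ ball x (sSup S) := mem_ball_self (lt_of_lt_of_le (hpos r h1) (le_csSup hSb h1))
    show h (ρ x) x = v
    rw [heq r h1 x (mem_ball_self (hpos r h1)) hx, hv r h1]
  · intro w hw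
    exact hr _ (hρS w hw) w (hρw w hw)

theorem STEP2_cn (n : ℕ) (hn : 2 ≤ n) (ρ₁ : ℝ) : ρ₁ ^ 2 / cn n ≤ (ρ₁ / 64) ^ 2 / 1024 := by
  have h1 : (1 : ℝ) ≤ n := by exact_mod_cast (by omega : 1 ≤ n)
  have h2 : (4 : ℝ) ^ 40 ≤ cn n := by
    unfold cn
    have h3 : (4 : ℝ) ^ 40 ≤ 4 ^ (40 + 2 * n) := pow_le_pow_right₀ (by norm_num) (by omega)
    have h4 : (1 : ℝ) ≤ (n : ℝ) ^ 2 := one_le_pow₀ h1
    calc (4 : ℝ) ^ 40 = 4 ^ 40 * 1 := by ring
      _ ≤ 4 ^ (40 + 2 * n) * (n : ℝ) ^ 2 := mul_le_mul h3 h4 (by norm_num) (by positivity)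
  have h5 : ρ₁ ^ 2 / cn n ≤ ρ₁ ^ 2 / 4 ^ 40 :=
    div_le_div_of_nonneg_left (sq_nonneg _) (by norm_num) h2
  refine h5.trans ?_
  rw [div_pow, div_div]
  exact div_le_div_of_nonneg_left (sq_nonneg _) (by norm_num) (by norm_num)

theorem STEP2 (hLUN : LUN_stmt) (hINC : INC_stmt) (hP2H : P2H_stmt) (hP2A : P2A_stmt)
    (hNHP : NHP_stmt) : STEP2_stmt := by
  intro n k _ f b g ψ ra R ε y ρ₁ χ G1 ps T G Q h hQk hε
  have hn : 2 ≤ n := h.su2.su.hn
  have hρ : 0 < ρ₁ := h.su2.r0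
  have hsys := h.sys
  obtain ⟨hH1, -, -, hsub1, hsub2⟩ := hP2H n k f b g ψ ra R ε y ρ₁ χ G1 ps h.su2
  obtain ⟨hAg, -⟩ := hP2A n k f b g ψ ra R ε y ρ₁ χ G1 ps T G Q h
  set x₀ : ℂ := ctr y ρ₁ with hx₀
  have hs1 := h.su2.s1
  have hexp : ∀ w ∈ ball x₀ (ρ₁ / 8), Complex.exp w ∈ ball (0 : ℂ) (Real.exp (-(3 * (ρ₁ / 64)))) := by
    intro w hw
    rw [mem_ball_zero_iff, Complex.norm_exp]
    exact Real.exp_lt_exp.mpr (hsub1 hw)
  have hre : ∀ w ∈ ball x₀ (ρ₁ / 8), w.re < -(ρ₁ / 8) := by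
    intro w hw
    rw [mem_ball, dist_eq_norm] at hw
    have h1 := (Complex.abs_re_le_norm (w - x₀)).trans_lt hw
    have h2 : x₀.re = -(ρ₁ / 4) := by
      rw [hx₀]
      unfold ctr
      have : ((ρ₁ : ℂ) / 4) = ((ρ₁ / 4 : ℝ) : ℂ) := by push_cast; ring
      rw [this]
      simp
    rw [Complex.sub_re, h2] at h1
    have h3 := (abs_lt.mp h1).2
    linarith
  have hlow : ρ₁ / 8 ≤ T Q := hsys.low Q le_rfl
  have hGQ : ∀ w ∈ ball x₀ (ρ₁ / 8), G Q w = GW G1 Q w := by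
    intro w hw
    refine hAg Q le_rfl w (ball_subset_ball hlow hw) ?_
    have := hre w hw
    linarith
  set S : Set ℝ := {r | ρ₁ / 8 ≤ r ∧ r ≤ T Q ∧ ¬ Fail2 f y ρ₁ χ G1 ps G Q r} with hS
  have hmem : ρ₁ / 8 ∈ S := by
    refine ⟨le_rfl, hlow, ?_⟩
    rintro (⟨h1, h2, h3⟩ | h3)
    · rw [Set.not_disjoint_iff] at h3
      obtain ⟨z, ⟨w, hw, hwz⟩, ⟨v, hv, hvz⟩⟩ := h3
      obtain ⟨-, -, -, -, -, -, -, hincl⟩ := hINC n k f b g ψ ra R ε (ρ₁ / 64) _ G1 Q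
        (hH1 Q hQk.le) h1 (hε.trans (STEP2_cn n hn ρ₁))
      have h4 : G Q w ∈ ψ (-(Q : ZMod k)) '' ball 0 1 := by
        rw [hGQ w hw]
        refine hincl ⟨Complex.exp w, ?_, rfl⟩
        rw [mem_ball_zero_iff, Complex.norm_exp]
        apply Real.exp_lt_exp.mpr
        have := hre w hw
        linarith
      rw [hwz, ← hvz] at h4
      have h5 : (0 : ZMod k) ≠ -(Q : ZMod k) := by
        intro h0
        have h6 : (Q : ZMod k) = 0 := by rw [← neg_eq_zero]; exact h0.symm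
        rw [ZMod.natCast_eq_zero_iff] at h6
        exact absurd (Nat.le_of_dvd (by omega) h6) (by omega)
      have h6 := hNHP k b g 0 (-(Q : ZMod k)) (ψ 0) (ψ (-(Q : ZMod k))) χ y ρ₁ v h.su2.su.cyc.inj h5
        (h.su2.su.mx 0).pn (h.su2.su.mx _).pn hρ h.su2.nat h.su2.ext
        (ball_subset_ball (by linarith) (hsub2 hv)) h4
      exact h2 (h.su2.hps Q h1 hQk h6)
    · apply h3
      refine ⟨GW G1 (Q + 1), ?_, rfl, ?_⟩
      · have hd : DifferentiableOn ℂ (G1 (Q + 1)) (ball 0 (Real.exp (-(3 * (ρ₁ / 64))))) :=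
          hs1.diff (Q + 1) (by omega) (by omega)
        exact hd.comp Complex.differentiable_exp.differentiableOn hexp
      · intro w hw
        rw [hGQ w hw]
        exact hs1.rel Q hQk (Complex.exp w) (hexp w hw)
  have hSne : S.Nonempty := ⟨_, hmem⟩
  have hSb : BddAbove S := ⟨T Q, fun r hr => hr.2.1⟩
  set t' : ℝ := sSup S with ht'
  have ht1 : t' ≤ T Q := csSup_le hSne fun r hr => hr.2.1
  have ht2 : ρ₁ / 8 ≤ t' := le_csSup hSb hmem
  have hfail : ∀ r, t' < r → r < T Q → Fail2 f y ρ₁ χ G1 ps G Q r := by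
    intro r hr1 hr2
    by_contra hf
    exact absurd (le_csSup hSb (show r ∈ S from ⟨ht2.trans hr1.le, hr2.le, hf⟩)) (not_le.mpr hr1)
  have hnd : 1 ≤ Q → Q ≠ ps →
      Disjoint (G Q '' ball x₀ t') (χ '' ball x₀ (9 * ρ₁ / 8)) := by
    intro h1 h2
    by_contra h3
    rw [Set.not_disjoint_iff] at h3
    obtain ⟨z, ⟨w, hw, hwz⟩, hz⟩ := h3
    rw [mem_ball] at hw
    obtain ⟨r, hr, hwr⟩ := exists_lt_of_lt_csSup hSne hw
    exact hr.2.2 (Or.inl ⟨h1, h2, Set.not_disjoint_iff.mpr ⟨z, ⟨w, mem_ball.mpr hwr, hwz⟩, hz⟩⟩)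
  obtain ⟨g', hg1, hg2, hg3⟩ := STEP2_glue hLUN f (G Q) x₀ (GW G1 (Q + 1) x₀) S hSne hSb
    (fun r hr => lt_of_lt_of_le (by positivity) hr.1) (fun r hr => by
      by_contra hb
      exact hr.2.2 (Or.inr hb))
  have hT : ∀ q ≤ Q, Function.update T (Q + 1) t' q = T q := fun q hq =>
    Function.update_of_ne (by omega) _ _
  have hTn : Function.update T (Q + 1) t' (Q + 1) = t' := Function.update_self _ _ _
  have hG : ∀ q ≤ Q, Function.update G (Q + 1) g' q = G q := fun q hq =>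
    Function.update_of_ne (by omega) _ _
  have hGn : Function.update G (Q + 1) g' (Q + 1) = g' := Function.update_self _ _ _
  refine ⟨t', g', ⟨h.su2, ⟨?_, ?_, ?_, ?_, ?_, ?_, ?_, ?_⟩, hQk⟩, hfail⟩
  · rw [hT 0 (by omega)]
    exact hsys.t0
  · intro q hq
    rcases Nat.lt_succ_iff_lt_or_eq.mp hq with hq' | hq'
    · rw [hT q hq'.le, hT (q + 1) hq']
      exact hsys.anti q hq'
    · subst hq'
      rw [hT q le_rfl, hTn]
      exact ht1
  · intro q hq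
    rcases Nat.le_succ_iff.mp hq with hq' | hq'
    · rw [hT q hq']
      exact hsys.low q hq'
    · subst hq'
      rw [hTn]
      exact ht2
  · rw [hG 0 (by omega)]
    exact hsys.g0
  · intro q hq
    rcases Nat.le_succ_iff.mp hq with hq' | hq'
    · rw [hT q hq', hG q hq']
      exact hsys.diff q hq'
    · subst hq'
      rw [hTn, hGn]
      exact hg1
  · intro q hq w hw
    rcases Nat.lt_succ_iff_lt_or_eq.mp hq with hq' | hq'
    · rw [hT (q + 1) hq'] at hw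
      rw [hG q hq'.le, hG (q + 1) hq']
      exact hsys.rel q hq' w hw
    · subst hq'
      rw [hTn] at hw
      rw [hG q le_rfl, hGn]
      exact hg3 w hw
  · intro q hq
    rcases Nat.le_succ_iff.mp hq with hq' | hq'
    · rw [hG q hq']
      exact hsys.val q hq'
    · subst hq'
      rw [hGn]
      exact hg2
  · intro q hq1 hq hqp
    rcases Nat.lt_succ_iff_lt_or_eq.mp hq with hq' | hq'
    · rw [hT (q + 1) hq', hG q hq'.le]
      exact hsys.disj q hq1 hq' hqp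
    · subst hq'
      rw [hTn, hG q le_rfl]
      exact hnd hq1 hqp

end PPS
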