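import Pool.Agent.helper36.PP.SpecD
import Pool.Agent.helper30.MQ.LT

/-!
# pp:LT: transport of strips between different cylinders
-/

set_option autoImplicit false

open Complex Metric Set Filter Topology MeasureTheory MPS MQ

noncomputable section

namespace PPS

/-- the mass of all levels on a subset of the final disc of Phase 2 -/
theorem LT_mass (hMA : MA_stmt) (hP2A : P2A_stmt) (n k : ℕ) [NeZero k] (f : Polynomial ℂ)
    (b g : ZMod k → ℂ) (ψ : ZMod k → ℂ → ℂ) (ra R ε y ρ₁ : ℝ) (χ : ℂ → ℂ) (G1 : ℕ → ℂ → ℂ) (ps : ℕ)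
    (r : ℝ) (G : ℕ → ℂ → ℂ) (h : H2 n k f b g ψ ra R ε y ρ₁ χ G1 ps (fun _ => r) G k) (U : Set ℂ)
    (hU : U ⊆ ball (ctr y ρ₁) r) :
    ∑ q ∈ Finset.range k, ∫⁻ w in U, ENNReal.ofReal (dens f b g (G q) w) ≤
      ENNReal.ofReal (2 * ε) := by
  have hsu := h.su2.su
  obtain ⟨-, hinj, hmaps, -, hmult, -, -⟩ := hP2A n k f b g ψ ra R ε y ρ₁ χ G1 ps (fun _ => r) G k h
  have h1 := (hMA n k f b g R hsu.hn hsu.hdeg hsu.cyc hsu.rho1 hsu.posR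
    (fun j => (hsu.hra j).trans_lt hsu.hR) hsu.inv k 2 (fun _ => ball (ctr y ρ₁) r) G
    (fun q hq => ⟨isOpen_ball, h.sys.diff q hq.le, hinj q hq.le, hmaps q hq.le⟩) hmult).1
  have h2 : ∑ q ∈ Finset.range k, ∫⁻ w in U, ENNReal.ofReal (dens f b g (G q) w) ≤
      ∑ q ∈ Finset.range k, ∫⁻ w in ball (ctr y ρ₁) r, ENNReal.ofReal (dens f b g (G q) w) :=
    Finset.sum_le_sum fun q _ => lintegral_mono_set hU
  refine (h2.trans h1).trans ?_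
  have h3 : 0 ≤ ∫ z in ball (0 : ℂ) R, ‖er f b g z‖ :=
    integral_nonneg fun z => norm_nonneg _
  have h4 : 2 * Real.pi * Real.log ‖rho f b‖ + 3 * ∫ z in ball (0 : ℂ) R, ‖er f b g z‖ ≤ ε := by
    have := hsu.hE
    linarith
  calc ((2 : ℕ) : ENNReal) * ENNReal.ofReal (2 * Real.pi * Real.log ‖rho f b‖ +
        3 * ∫ z in ball (0 : ℂ) R, ‖er f b g z‖)
      ≤ ((2 : ℕ) : ENNReal) * ENNReal.ofReal ε := by gcongr
    _ = ENNReal.ofReal (2 * ε) := by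
        rw [ENNReal.ofReal_mul (by norm_num)]
        norm_num

theorem LT_core (hSHF : SHF_stmt) (hTR : TR_stmt) (hNH : NH_stmt)
    (hINC : INC_stmt) (hROT : ROTQ_stmt) (hCMP : CMP_stmt) (hMA : MA_stmt) (hP1A : P1A_stmt)
    (hP2A : P2A_stmt) (hPT1 : PT1_stmt) (hPT2 : PT2_stmt) (hGL : GL_stmt) (hRE0 : RE0_stmt)
    (n : ℕ) (ρ₁ δ η ra : ℝ) (hn : 2 ≤ n) (hρ : 0 < ρ₁) (hρ1 : 16 * ρ₁ ≤ 1) (hδ : 0 < δ)
    (hδη : δ ≤ η / 20) (hδρ : δ ≤ ρ₁ / 10 ^ 4)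
    (k : ℕ) [NeZero k] (f : Polynomial ℂ) (b g : ZMod k → ℂ) (ψ : ZMod k → ℂ → ℂ) (R ε : ℝ)
    (hSU : SU n k f b g ψ ra R ε) (hF : Fam b g ψ) (hε1 : ε ≤ δ ^ 2 / 1024)
    (hε2 : ε ≤ ρ₁ * δ / 10 ^ 6)
    (hPHW : ∀ (y : ℝ) (χ : ℂ → ℂ),
      IsNat b g χ (HP 0 ∪ ball ((y : ℂ) * I) (16 * ρ₁)) → EqOn χ (hat (ψ 0)) (HP 0) →
      ∃ (ps : ℕ) (G1 : ℕ → ℂ → ℂ) (r : ℝ) (G : ℕ → ℂ → ℂ), ρ₁ < r ∧
        H2 n k f b g ψ ra R ε y ρ₁ χ G1 ps (fun _ => r) G k)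
    (hP1W : ∀ (b g : ZMod k → ℂ) (ψ : ZMod k → ℂ → ℂ), SU n k f b g ψ ra R ε →
      ∃ G : ℕ → ℂ → ℂ, ∀ Q ≤ k, H1 n k f b g ψ ra R ε δ (fun _ => 3 * δ) G Q)
    (hKRE : ∀ (i : ZMod k) (q : ℕ), 1 ≤ q → q ≤ k → |Real.log ‖Kq f b ψ i q‖| ≤ 5 * δ)
    (l : ZMod k) (q : ℕ) (S : ℂ) (y : ℝ) (hl : (0 : ZMod k) ≠ l) (hq1 : 1 ≤ q) (hqk : q ≤ k)
    (hStrip : Strip b g (ψ 0) (ψ l) S (y - 16 * ρ₁) (y + 16 * ρ₁)) (hS : S.re ≤ 16 * ρ₁ / 1000) :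
    ∃ κ κ' S' : ℂ, Complex.exp κ = Kq f b ψ 0 q ∧ Complex.exp κ' = Kq f b ψ l q ∧
      ‖S' - (S + κ + κ')‖ ≤ η ∧ |κ.re| ≤ η ∧ |κ'.re| ≤ η ∧
      Strip b g (ψ (-(q : ZMod k))) (ψ (l - (q : ZMod k))) S' (y + κ.im - 16 * ρ₁ / 200)
        (y + κ.im + 16 * ρ₁ / 200) := by
  -- lower bound of `Re S`
  have hS0 : 0 ≤ S.re := hRE0 k b g ψ hF 0 l S (y - 16 * ρ₁) (y + 16 * ρ₁)
    (by linarith only [hρ]) hStrip
  obtain ⟨χ₀, hχ₀⟩ := hStrip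
  obtain ⟨χ, hχn, hχe, hχr⟩ := MQ.LT_flat hNH (hF.mx 0).pn hχ₀
  obtain ⟨ps, G1, r, G, hrρ, hH2⟩ := hPHW y χ hχn hχe
  obtain ⟨G', hG'⟩ := hP1W b g ψ hSU
  -- the shifted data
  obtain ⟨hSUl, -, -, -⟩ := hTR n k f b g ψ ra R ε l hSU
  obtain ⟨hKl, hLevl, -, -, htaul, -⟩ := hSHF k f b g ψ l
  obtain ⟨Gh, hGh⟩ := hP1W _ _ _ hSUl
  have hδ1000 : δ ≤ ρ₁ / 1000 := by
    have : ρ₁ / 10 ^ 4 ≤ ρ₁ / 1000 := by
      apply div_le_div_of_nonneg_left hρ.le (by norm_num) (by norm_num)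
    linarith only [this, hδρ]
  obtain ⟨κ, Φ, χ', hκ, hκre, hΦ, hχ'n, hχ'e, hΦb⟩ := hROT n k f b g ψ ra R ε y ρ₁ r δ χ G1 ps G G'
    hH2 hrρ hG' hδ1000 hε1 hε2 (fun q h1 h2 => hKRE 0 q h1 h2) q hq1 hqk
  obtain ⟨Φh, κ', -, hΦh1, hΦh2, hκ', -⟩ := hINC n k f _ _ _ ra R ε δ (fun _ => 3 * δ) Gh q
    (hGh q hqk) hq1 hε1
  have hκ'2 : Complex.exp κ' = Kq f b ψ l q := by
    rw [hκ', hKl 0 q, add_zero]
  have hκ're : |κ'.re| ≤ 5 * δ := by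
    have h1 := hKRE l q hq1 hqk
    rw [← hκ'2, Complex.norm_exp, Real.log_exp] at h1
    exact h1
  -- the point `w*`
  have hws : ‖((y : ℂ) * I + (ρ₁ / 8 : ℝ)) - (y : ℂ) * I‖ = ρ₁ / 8 := by
    rw [add_sub_cancel_left, Complex.norm_real, Real.norm_eq_abs, abs_of_pos (by linarith only [hρ])]
  have hwsc : ‖((y : ℂ) * I + (ρ₁ / 8 : ℝ)) - ctr y ρ₁‖ = 3 * ρ₁ / 8 := by
    have : ((y : ℂ) * I + (ρ₁ / 8 : ℝ)) - ctr y ρ₁ = ((3 * ρ₁ / 8 : ℝ) : ℂ) := by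
      unfold ctr
      push_cast
      ring
    rw [this, Complex.norm_real, Real.norm_eq_abs, abs_of_pos (by linarith only [hρ])]
  have hwre : ((y : ℂ) * I + (ρ₁ / 8 : ℝ)).re = ρ₁ / 8 := by
    simp
  generalize hwdef : ((y : ℂ) * I + (ρ₁ / 8 : ℝ)) = ws at hws hwsc hwre
  have hSw : (S - ws).re ≤ -(ρ₁ / 10) := by
    rw [Complex.sub_re, hwre]
    linarith only [hS, hρ]
  have h4 : ρ₁ / 10 ^ 4 = ρ₁ * (1 / 10 ^ 4) := by ring
  have hδ4 : δ ≤ ρ₁ * (1 / 10 ^ 4) := by rw [← h4]; exact hδρ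
  have hSw3 : (S - ws).re < -(3 * δ + δ / 4) := by
    norm_num at hδ4
    linarith only [hSw, hδ4, hρ]
  -- comparison
  have hρ2 : 0 < ρ₁ ^ 2 := by positivity
  have hερ : ε ≤ ρ₁ ^ 2 / 10 ^ 10 := by
    have h5 : ρ₁ * δ ≤ ρ₁ * (ρ₁ * (1 / 10 ^ 4)) := mul_le_mul_of_nonneg_left hδ4 hρ.le
    have h6 : ρ₁ * (ρ₁ * (1 / 10 ^ 4)) = ρ₁ ^ 2 / 10 ^ 4 := by ring
    rw [h6] at h5
    have h7 : ρ₁ * δ / 10 ^ 6 ≤ ρ₁ ^ 2 / 10 ^ 4 / 10 ^ 6 :=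
      div_le_div_of_nonneg_right h5 (by norm_num)
    have h8 : ρ₁ ^ 2 / 10 ^ 4 / 10 ^ 6 = ρ₁ ^ 2 / 10 ^ 10 := by ring
    rw [h8] at h7
    exact hε2.trans h7
  have hLev : LevSys f b g G (ball (ctr y ρ₁) r) k :=
    (hP2A n k f b g ψ ra R ε y ρ₁ χ G1 ps (fun _ => r) G k hH2).2.2.2.1 k le_rfl
  have hLev' : LevSys f b g (GW Gh) (HP (3 * δ)) k :=
    (hLevl (GW Gh) (HP (3 * δ)) k).mp
      ((hP1A n k f _ _ _ ra R ε δ (fun _ => 3 * δ) Gh k (hGh k le_rfl)).2.2.2.1 k le_rfl)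
  have hopen3 : IsOpen (HP (3 * δ) : Set ℂ) := isOpen_lt Complex.continuous_re continuous_const
  -- the small ball
  have hbre : ∀ w ∈ ball ws (ρ₁ / 32), 3 * ρ₁ / 32 < w.re := by
    intro w hw
    rw [mem_ball, dist_eq_norm] at hw
    have h5 := (abs_lt.mp ((Complex.abs_re_le_norm (w - ws)).trans_lt hw)).1
    rw [Complex.sub_re, hwre] at h5
    linarith only [h5]
  have hSre : ∀ w ∈ ball ws (ρ₁ / 32), (S - w).re < -(3 * ρ₁ / 40) := by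
    intro w hw
    have h5 := hbre w hw
    rw [Complex.sub_re]
    linarith only [h5, hS, hρ]
  have hSHP : ∀ w ∈ ball ws (ρ₁ / 32), S - w ∈ HP (3 * δ) := by
    intro w hw
    have h5 := hSre w hw
    show (S - w).re < -(3 * δ)
    norm_num at hδ4
    linarith only [h5, hδ4, hρ]
  have hsubc : ball ws (ρ₁ / 32) ⊆ ball (ctr y ρ₁) r := by
    intro w hw
    rw [mem_ball, dist_eq_norm] at hw ⊢
    have h5 : w - ctr y ρ₁ = (w - ws) + (ws - ctr y ρ₁) := by ring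
    rw [h5]
    refine (norm_add_le _ _).trans_lt ?_
    rw [hwsc]
    linarith only [hw, hrρ, hρ]
  have hev : ∀ w ∈ ball ws (ρ₁ / 32), G 0 w = GW Gh 0 (S - w) := by
    intro w hw
    have hg0 : G 0 = χ := hH2.sys.g0
    have hg1 : Gh 0 = ψ (l + 0) := (hGh k le_rfl).sys.g0
    have h5 : w ∈ ball ((y : ℂ) * I) (16 * ρ₁) := by
      rw [mem_ball, dist_eq_norm] at hw ⊢
      have h6 : w - (y : ℂ) * I = (w - ws) + (ws - (y : ℂ) * I) := by ring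
      rw [h6]
      refine (norm_add_le _ _).trans_lt ?_
      rw [hws]
      linarith only [hw, hρ]
    have h6 := hbre w hw
    rw [hg0, hχr w h5 (by linarith only [h6, hS, hρ])]
    show hat (ψ l) (S - w) = Gh 0 (Complex.exp (S - w))
    rw [hg1, add_zero]
    rfl
  have htau : ∀ q ≤ k, ∀ w ∈ ball ws (ρ₁ / 32), ‖tau b g (GW Gh) q (S - w) - 1‖ ≤ 1 / 4 := by
    intro p hpk w hw
    rcases Nat.eq_zero_or_pos p with h0 | hp1
    · subst h0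
      have h5 : tau b g (GW Gh) 0 (S - w) = 1 := hLev'.nat0.eq _ (hSHP w hw)
      rw [h5, sub_self, norm_zero]
      norm_num
    have hSw' := hSre w hw
    have ht16 : ρ₁ / 16 ≤ -(S - w).re - 3 * δ := by
      norm_num at hδ4
      linarith only [hSw', hδ4, hρ]
    have ht0 : 0 < -(S - w).re - 3 * δ := by linarith only [ht16, hρ]
    obtain ⟨h1, h2, h3⟩ := hPT1 n k f _ _ _ ra R ε δ (fun _ => 3 * δ) Gh k (hGh k le_rfl) p hp1 hpk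
      (S - w) (-(S - w).re - 3 * δ) ht0 (by ring)
    rw [htaul] at h3
    refine h3.trans ?_
    rcases le_total (-(S - w).re - 3 * δ) 1 with h | h
    · refine (h1 h).trans ?_
      rw [div_le_iff₀ (by positivity)]
      have h5 : (ρ₁ / 16) ^ 2 ≤ (-(S - w).re - 3 * δ) ^ 2 :=
        pow_le_pow_left₀ (by positivity) ht16 2
      have h6 : (ρ₁ / 16) ^ 2 = ρ₁ ^ 2 / 256 := by ring
      rw [h6] at h5
      norm_num at hερ
      linarith only [h5, hερ, hρ2]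
    · refine (h2 h).trans ?_
      have h5 : Real.exp (1 - (-(S - w).re - 3 * δ)) ≤ 1 := by
        rw [Real.exp_le_one_iff]
        linarith only [h]
      have h6 : 0 < Real.exp (1 - (-(S - w).re - 3 * δ)) := Real.exp_pos _
      have hε16 : 4 * ε ≤ 1 / 4 := by
        have h7 : ρ₁ ^ 2 ≤ 1 := by
          have : ρ₁ ≤ 1 := by linarith only [hρ1, hρ]
          exact pow_le_one₀ hρ.le this
        norm_num at hερ
        linarith only [hερ, h7]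
      calc 4 * ε * Real.exp (1 - (-(S - w).re - 3 * δ))
          ≤ 1 / 4 * Real.exp (1 - (-(S - w).re - 3 * δ)) :=
            mul_le_mul_of_nonneg_right hε16 h6.le
        _ ≤ 1 / 4 * 1 := mul_le_mul_of_nonneg_left h5 (by norm_num)
        _ = 1 / 4 := by norm_num
  have hlev : ∀ q, 1 ≤ q → q ≤ k → lev b g G q ws ≤ 1 / 100 := by
    intro p hp1 hpk
    have h1 := (hPT2 n k f b g ψ ra R ε y ρ₁ χ G1 ps (fun _ => r) G k hH2 p hp1 hpk ws (ρ₁ / 2)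
      (by linarith only [hρ]) (by rw [hwsc]; linarith only [hrρ, hρ])).1
    have h2 : lev b g G p ws ≤ ∑ q ∈ Finset.Icc 1 p, lev b g G q ws :=
      Finset.single_le_sum (f := fun q => lev b g G q ws) (fun q _ => norm_nonneg _)
        (Finset.mem_Icc.mpr ⟨hp1, le_rfl⟩)
    refine (h2.trans h1).trans ?_
    rw [div_le_iff₀ (by positivity)]
    have h3 : (ρ₁ / 2) ^ 2 = ρ₁ ^ 2 / 4 := by ring
    rw [h3]
    norm_num at hερ ⊢
    linarith only [hερ, hρ2]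
  have hmass : ∑ q ∈ Finset.range k, ∫⁻ w in ball ws (ρ₁ / 32),
      ENNReal.ofReal (dens f b g (G q) w) ≤ ENNReal.ofReal ((ρ₁ / 32) ^ 2 / 100) := by
    refine (LT_mass hMA hP2A n k f b g ψ ra R ε y ρ₁ χ G1 ps r G hH2 _ hsubc).trans ?_
    apply ENNReal.ofReal_le_ofReal
    have h3 : (ρ₁ / 32) ^ 2 / 100 = ρ₁ ^ 2 / 102400 := by ring
    rw [h3]
    norm_num at hερ ⊢
    linarith only [hερ, hρ2]
  have hwsm : ws ∈ ball ws (ρ₁ / 32) := mem_ball_self (by linarith only [hρ])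
  have hcmp := hCMP k f b g G (GW Gh) (ball (ctr y ρ₁) r) (HP (3 * δ)) ws S k (ρ₁ / 32)
    (by rw [hSU.hdeg]; omega) hSU.cyc isOpen_ball hopen3 hLev hLev' (by linarith only [hρ]) hsubc
    hSHP hev htau hlev hmass q hqk
  have hGq : G q ws = GW Gh q (S - ws) := hcmp ws hwsm
  -- the two points
  have hws5 : ws ∈ ball ((y : ℂ) * I) (ρ₁ / 5) := by
    rw [mem_ball, dist_eq_norm, hws]
    linarith only [hρ]
  have hws2 : ws ∈ ball ((y : ℂ) * I) (ρ₁ / 2) := by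
    rw [mem_ball, dist_eq_norm, hws]
    linarith only [hρ]
  have hv1 := hΦb ws hws5
  have hv2 := hΦ ws hws2
  have hv3 := hΦh2 (S - ws) hSw3
  have hv4 := (hΦh1 (S - ws) (by
    show (S - ws).re < -(3 * δ + δ / 8)
    linarith only [hSw3, hδ])).1
  have hidx : l + -(q : ZMod k) = l - (q : ZMod k) := by ring
  have hv3' : hat (ψ (l - (q : ZMod k))) (Φh (S - ws)) = GW Gh q (S - ws) := by
    rw [← hidx]
    exact hv3.2
  have hchi : χ' (Φ ws) = hat (ψ (l - (q : ZMod k))) (Φh (S - ws)) := by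
    rw [hv1.2, hGq, hv3']
  -- the sum
  have herr : ‖(Φ ws + Φh (S - ws)) - (S + κ + κ')‖ ≤ 2 * δ := by
    have h9 : (Φ ws + Φh (S - ws)) - (S + κ + κ') =
        (Φ ws - ws - κ) + (Φh (S - ws) - (S - ws) - κ') := by ring
    rw [h9]
    refine (norm_add_le _ _).trans ?_
    linarith only [hv2, hv4, hδ]
  have hre : |(Φ ws + Φh (S - ws)).re - (S.re + κ.re + κ'.re)| ≤ 2 * δ := by
    have h10 := (Complex.abs_re_le_norm ((Φ ws + Φh (S - ws)) - (S + κ + κ'))).trans herr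
    rwa [Complex.sub_re, Complex.add_re (S + κ) κ', Complex.add_re S κ] at h10
  have hsq : (16 * ρ₁ / 200) ^ 2 + (Φ ws + Φh (S - ws)).re ^ 2 < (ρ₁ / 4) ^ 2 := by
    have h11 : |(Φ ws + Φh (S - ws)).re| ≤ ρ₁ / 50 := by
      rw [abs_le] at hre hκre hκ're ⊢
      norm_num at hδ4
      constructor
      · linarith only [hre.1, hκre.1, hκ're.1, hS0, hδ4, hρ, hδ]
      · linarith only [hre.2, hκre.2, hκ're.2, hS, hδ4, hρ, hδ]
    have h12 : (Φ ws + Φh (S - ws)).re ^ 2 ≤ (ρ₁ / 50) ^ 2 := by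
      rw [← sq_abs]
      exact pow_le_pow_left₀ (abs_nonneg _) h11 2
    have h13 : (ρ₁ / 50) ^ 2 = ρ₁ ^ 2 / 2500 := by ring
    have h14 : (16 * ρ₁ / 200) ^ 2 = ρ₁ ^ 2 * (256 / 40000) := by ring
    have h15 : (ρ₁ / 4) ^ 2 = ρ₁ ^ 2 / 16 := by ring
    rw [h14, h15]
    rw [h13] at h12
    linarith only [h12, hρ2]
  have hne : (-(q : ZMod k)) ≠ l - (q : ZMod k) := by
    intro h
    apply hl
    have h16 : (-(q : ZMod k)) + q = (l - (q : ZMod k)) + q := by rw [h]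
    rw [neg_add_cancel, sub_add_cancel] at h16
    exact h16
  have hfin := hGL k b g ψ hF (-(q : ZMod k)) (l - (q : ZMod k)) χ' (y + κ.im) (ρ₁ / 4)
    (16 * ρ₁ / 200) (Φ ws) (Φh (S - ws)) hne (by linarith only [hρ]) hχ'n hχ'e hv1.1 hv3.1 hchi hsq
  refine ⟨κ, κ', Φ ws + Φh (S - ws), hκ, hκ'2, ?_, ?_, ?_, hfin⟩
  · linarith only [herr, hδη, hδ]
  · linarith only [hκre, hδη, hδ]
  · linarith only [hκ're, hδη, hδ]

theorem LT (hSHF : SHF_stmt) (hSHQ : MQ.SHF_stmt) (hTR : TR_stmt) (hNH : NH_stmt) (hP1W : P1W_stmt)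
    (hPHW : PHW_stmt) (hKRE : KRE_stmt) (hINC : INC_stmt)
    (hROT : ROTQ_stmt) (hCMP : CMP_stmt) (hMA : MA_stmt) (hP1A : P1A_stmt) (hP2A : P2A_stmt)
    (hPT1 : PT1_stmt) (hPT2 : PT2_stmt) (hGL : GL_stmt) (hRE0 : RE0_stmt) : LT_stmt := by
  intro n r₀ η ra hn hr₀ hr₁ hη hra
  obtain ⟨ρ₁, hρdef⟩ : ∃ ρ₁ : ℝ, ρ₁ = r₀ / 16 := ⟨_, rfl⟩
  have hρ : 0 < ρ₁ := by rw [hρdef]; linarith only [hr₀]
  have hr : r₀ = 16 * ρ₁ := by rw [hρdef]; ring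
  subst hr
  obtain ⟨δ, hδdef⟩ : ∃ δ : ℝ, δ = min (η / 20) (ρ₁ / 10 ^ 4) := ⟨_, rfl⟩
  have hδ : 0 < δ := by
    rw [hδdef]
    exact lt_min (by positivity) (by positivity)
  have hδη : δ ≤ η / 20 := by rw [hδdef]; exact min_le_left _ _
  have hδρ : δ ≤ ρ₁ / 10 ^ 4 := by rw [hδdef]; exact min_le_right _ _
  have hδ20 : δ ≤ 1 / 20 := by
    norm_num at hδρ
    linarith only [hδρ, hr₁, hρ]
  obtain ⟨R₁, hR₁, ε₁, hε₁, H1'⟩ := hPHW n ρ₁ ra hn hρ hr₁ hra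
  obtain ⟨R₂, hR₂, ε₂, hε₂, H2'⟩ := hP1W n δ ra hn hδ hδ20 hra
  obtain ⟨R₃, hR₃, ε₃, hε₃, H3'⟩ := hKRE n δ ra hn hδ hδ20 hra
  refine ⟨max R₁ (max R₂ R₃), lt_of_lt_of_le hR₁ (le_max_left _ _),
    min (min ε₁ (min ε₂ ε₃)) (min (δ ^ 2 / 1024) (ρ₁ * δ / 10 ^ 6)), ?_, ?_⟩
  · exact lt_min (lt_min hε₁ (lt_min hε₂ hε₃)) (lt_min (by positivity) (by positivity))
  intro k _ f b g ψ R ε hSU hF hR hε i l q S y hil hq1 hqk hStrip hS
  have hR1 : R₁ ≤ R := (le_max_left _ _).trans hR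
  have hR2 : R₂ ≤ R := ((le_max_left _ _).trans (le_max_right _ _)).trans hR
  have hR3 : R₃ ≤ R := ((le_max_right _ _).trans (le_max_right _ _)).trans hR
  have hE1 : ε ≤ ε₁ := (hε.trans (min_le_left _ _)).trans (min_le_left _ _)
  have hE2 : ε ≤ ε₂ := ((hε.trans (min_le_left _ _)).trans (min_le_right _ _)).trans
    (min_le_left _ _)
  have hE3 : ε ≤ ε₃ := ((hε.trans (min_le_left _ _)).trans (min_le_right _ _)).trans
    (min_le_right _ _)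
  have hE4 : ε ≤ δ ^ 2 / 1024 := (hε.trans (min_le_right _ _)).trans (min_le_left _ _)
  have hE5 : ε ≤ ρ₁ * δ / 10 ^ 6 := (hε.trans (min_le_right _ _)).trans (min_le_right _ _)
  obtain ⟨hSUi, -, -, -⟩ := hTR n k f b g ψ ra R ε i hSU
  obtain ⟨hKi, -, -, -, -, -⟩ := hSHF k f b g ψ i
  obtain ⟨hFi, -, -, -, hSi, -, -, -⟩ := hSHQ n k 0 b g ψ i
  have hli : i + (l - i) = l := by ring
  have hi0 : i + 0 = i := add_zero i
  have hne : (0 : ZMod k) ≠ l - i := by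
    intro h
    apply hil
    exact (sub_eq_zero.mp h.symm).symm
  have hStrip' : Strip (fun j => b (i + j)) (fun j => g (i + j)) (ψ (i + 0)) (ψ (i + (l - i))) S
      (y - 16 * ρ₁) (y + 16 * ρ₁) := by
    rw [hli, hi0]
    exact (hSi _ _ _ _ _).mpr hStrip
  obtain ⟨κ, κ', S', h1, h2, h3, h4, h5, h6⟩ := LT_core hSHF hTR hNH hINC hROT hCMP hMA hP1A
    hP2A hPT1 hPT2 hGL hRE0 n ρ₁ δ η ra hn hρ hr₁ hδ hδη hδρ k f (fun j => b (i + j))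
    (fun j => g (i + j)) (fun j => ψ (i + j)) R ε hSUi (hFi hF) hE4 hE5
    (fun y χ h1 h2 => H1' k f _ _ _ R ε hSUi hR1 hE1 y χ h1 h2)
    (fun b g ψ h => H2' k f b g ψ R ε h hR2 hE2)
    (fun i' q h1 h2 => H3' k f _ _ _ R ε hSUi hR3 hE3 i' q h1 h2)
    (l - i) q S y hne hq1 hqk hStrip' hS
  refine ⟨κ, κ', S', ?_, ?_, h3, h4, h5, ?_⟩
  · rw [h1, hKi 0 q, add_zero]
  · rw [h2, hKi (l - i) q, hli]
  · have h7 := (hSi _ _ _ _ _).mp h6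
    have h8 : i + -(q : ZMod k) = i - (q : ZMod k) := by ring
    have h9 : i + (l - i - (q : ZMod k)) = l - (q : ZMod k) := by ring
    rw [h8, h9] at h7
    exact h7

end PPS
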