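import Pool.Agent.helper36.PP.SpecA
import Pool.Agent.helper30.MP.TR

/-!
# pp:TR: shift of the base point of the cycle
-/

set_option autoImplicit false

open Complex Metric Set Filter Topology MeasureTheory MPS

noncomputable section

namespace PPS

theorem TR_er (f : Polynomial ℂ) (k : ℕ) [NeZero k] (b g : ZMod k → ℂ) (i : ZMod k) (z : ℂ) :
    er f (fun j => b (i + j)) (fun j => g (i + j)) z = er f b g z := by
  have h : BB (fun j => b (i + j)) (fun j => g (i + j)) = BB b g := funext (MPS.TR_BB k b g i)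
  unfold er
  rw [h]

theorem TR_rho (f : Polynomial ℂ) (k : ℕ) [NeZero k] (b : ZMod k → ℂ) (i : ZMod k) :
    rho f (fun j => b (i + j)) = rho f b := by
  unfold rho
  exact Equiv.prod_comp (Equiv.addLeft i) (fun j => fd f (b j))

theorem TR : TR_stmt := by
  intro n k _ f b g ψ ra R ε i h
  refine ⟨⟨h.hn, h.hdeg, h.hk, ⟨?_, ?_, ?_⟩, ?_, ?_, fun j => h.hra (i + j), h.hR, h.posR, h.inv,
    ?_⟩, TR_rho f k b i, MPS.TR_BB k b g i, ?_⟩
  · intro j₁ j₂ hj
    exact add_left_cancel (h.cyc.inj hj)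
  · intro j
    have := h.cyc.step (i + j)
    rw [add_assoc] at this
    exact this
  · intro j
    exact h.cyc.ne0 (i + j)
  · rw [TR_rho]
    exact h.rho1
  · intro j
    refine ⟨(MPS.TR_PN k b g i j _ 1).mpr (h.mx (i + j)).pn, fun r hr ψ' hψ' => ?_⟩
    exact (h.mx (i + j)).mx r hr ψ' ((MPS.TR_PN k b g i j _ r).mp hψ')
  · rw [TR_rho]
    have h1 : (fun z => ‖er f (fun j => b (i + j)) (fun j => g (i + j)) z‖) =
        fun z => ‖er f b g z‖ := by
      funext z
      rw [TR_er]
    rw [h1]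
    exact h.hE
  · intro χ y r
    unfold Flat
    simp only [MPS.TR_nat]

end PPS
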