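import Pool.Agent.helper36.PP.SpecM

/-!
# pp:TRI: uniform escape
-/

set_option autoImplicit false

open Complex Metric Set Filter Topology MeasureTheory MPS MQ Pool.Agent.helper98.ILF

noncomputable section

namespace PPS

theorem TRI_growth (f : Polynomial ℂ) (hf : 2 ≤ f.natDegree) :
    ∃ A : ℝ, 1 ≤ A ∧ ∀ z : ℂ, A ≤ ‖z‖ → 2 * ‖z‖ ≤ ‖f.eval z‖ := by
  have hdeg : 0 < f.divX.degree := by
    rw [Polynomial.natDegree_pos_iff_degree_pos.symm, Polynomial.natDegree_divX_eq_natDegree_tsub_one]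
    omega
  have h1 := Polynomial.tendsto_norm_atTop f.divX hdeg
    (tendsto_norm_cobounded_atTop (E := ℂ))
  have h2 := h1.eventually (eventually_ge_atTop 3)
  rw [hasBasis_cobounded_norm.eventually_iff] at h2
  obtain ⟨R, -, hR⟩ := h2
  refine ⟨max 1 (max R ‖f.coeff 0‖), le_max_left _ _, fun z hz => ?_⟩
  have h3 : R ≤ ‖z‖ := ((le_max_left _ _).trans (le_max_right _ _)).trans hz
  have h4 : ‖f.coeff 0‖ ≤ ‖z‖ := ((le_max_right _ _).trans (le_max_right _ _)).trans hz
  have h5 : 3 ≤ ‖f.divX.eval z‖ := hR h3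
  have h6 : f.eval z = f.divX.eval z * z + f.coeff 0 := by
    conv_lhs => rw [← Polynomial.divX_mul_X_add f]
    simp
  rw [h6]
  have h7 : ‖f.divX.eval z * z‖ ≤ ‖f.divX.eval z * z + f.coeff 0‖ + ‖f.coeff 0‖ := by
    have := norm_sub_le (f.divX.eval z * z + f.coeff 0) (f.coeff 0)
    rwa [add_sub_cancel_right] at this
  rw [norm_mul] at h7
  have h8 := mul_le_mul_of_nonneg_right h5 (norm_nonneg z)
  linarith

theorem TRI_cont (f : Polynomial ℂ) (m : ℕ) : Continuous (it f m) := by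
  unfold it
  exact Continuous.iterate f.continuous m

theorem TRI : TRI_stmt := by
  intro f x hf hx
  obtain ⟨A, hA1, hA⟩ := TRI_growth f hf
  obtain ⟨m₁, hm₁⟩ := (hx.eventually (eventually_gt_atTop A)).exists
  have h1 : ∀ᶠ z in 𝓝 x, A < ‖it f m₁ z‖ :=
    (TRI_cont f m₁).norm.continuousAt.eventually (lt_mem_nhds hm₁)
  obtain ⟨r, hr, hr2⟩ := Metric.eventually_nhds_iff.mp h1
  have h2 : ∀ j : ℕ, ∀ z : ℂ, ‖z - x‖ ≤ r / 2 → 2 ^ j * A ≤ ‖it f (m₁ + j) z‖ := by
    intro j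
    induction j with
    | zero =>
      intro z hz
      have h3 : dist z x < r := by
        rw [dist_eq_norm]
        linarith
      have h4 := hr2 h3
      simpa using h4.le
    | succ j ih =>
      intro z hz
      have h3 := ih z hz
      have h4 : A ≤ ‖it f (m₁ + j) z‖ := by
        refine le_trans ?_ h3
        have : (1 : ℝ) ≤ 2 ^ j := one_le_pow₀ (by norm_num)
        nlinarith
      have h5 := hA _ h4
      have h6 : it f (m₁ + (j + 1)) z = f.eval (it f (m₁ + j) z) := by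
        unfold it
        rw [← add_assoc, Function.iterate_succ_apply']
      rw [h6, pow_succ]
      linarith
  refine ⟨r / 2, by linarith, fun B => ?_⟩
  obtain ⟨j₀, hj₀⟩ := pow_unbounded_of_one_lt B (by norm_num : (1 : ℝ) < 2)
  refine ⟨m₁ + j₀, fun m hm z hz => ?_⟩
  obtain ⟨j, rfl⟩ : ∃ j, m = m₁ + j := ⟨m - m₁, by omega⟩
  have h3 : j₀ ≤ j := by omega
  have h4 : (2 : ℝ) ^ j₀ ≤ 2 ^ j := pow_le_pow_right₀ (by norm_num) h3
  have h5 := h2 j z hz
  have h6 : (0 : ℝ) < 2 ^ j := by positivity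
  nlinarith

end PPS
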