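import Pool.Agent.helper25.PP.Spec

/-!
# Project pp (MP_45d809_mp), module NAT: naturality of the state sum
-/

set_option autoImplicit false

namespace PP

open Finset SimpleGraph CT

theorem NAT_join {D D' : Type} [DecidableEq D] [DecidableEq D'] (j : D → D')
    (hj : Function.Injective j) (e : D → D) (e' : D' → D') (h : ∀ d, e' (j d) = j (e d))
    (a b z : D) : join e' (j a) (j b) (j z) = j (join e a b z) := by
  unfold join
  rw [h z, h a, h b]
  simp only [hj.eq_iff]
  split_ifs <;> rfl

theorem NAT_lp {D D' : Type} [DecidableEq D] [DecidableEq D'] (j : D → D')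
    (hj : Function.Injective j) (e : D → D) (e' : D' → D') (h : ∀ d, e' (j d) = j (e d))
    (a b : D) : CT.lp e' (j a) (j b) = CT.lp e a b := by
  unfold CT.lp
  rw [h a]
  simp only [hj.eq_iff]

theorem NAT : NAT_stmt := by
  intro V V' _ _ f x L
  induction L with
  | nil => intro e e' _ _; rfl
  | cons u L ih =>
    intro e e' hf h
    have hj : Function.Injective (fun d : V × Fin 4 => (f d.1, d.2)) := by
      intro d d' hd
      simp only [Prod.mk.injEq] at hd
      exact Prod.ext (hf hd.1) hd.2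
    have h' : ∀ d, e' ((fun d : V × Fin 4 => (f d.1, d.2)) d)
        = (fun d : V × Fin 4 => (f d.1, d.2)) (e d) := h
    have hjoin : ∀ (i k : Fin 4) (d : V × Fin 4),
        join e' (f u, i) (f u, k) ((fun d : V × Fin 4 => (f d.1, d.2)) d)
          = (fun d : V × Fin 4 => (f d.1, d.2)) (join e (u, i) (u, k) d) := by
      intro i k d
      exact NAT_join (fun d : V × Fin 4 => (f d.1, d.2)) hj e e' h' (u, i) (u, k) d
    show ∑ t : Fin 3, x ^ ls e' (f u) t * Z x (L.map f) (sm e' (f u) t)
      = ∑ t : Fin 3, x ^ ls e u t * Z x L (sm e u t)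
    refine Finset.sum_congr rfl fun t _ => ?_
    have h1 : ls e' (f u) t = ls e u t := by
      unfold ls
      have a1 : CT.lp e' (f u, (pr t).1) (f u, (pr t).2.1) = CT.lp e (u, (pr t).1) (u, (pr t).2.1) :=
        NAT_lp (fun d : V × Fin 4 => (f d.1, d.2)) hj e e' h' (u, (pr t).1) (u, (pr t).2.1)
      have a2 : CT.lp (join e' (f u, (pr t).1) (f u, (pr t).2.1)) (f u, (pr t).2.2.1)
          (f u, (pr t).2.2.2) = CT.lp (join e (u, (pr t).1) (u, (pr t).2.1)) (u, (pr t).2.2.1)
          (u, (pr t).2.2.2) :=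
        NAT_lp (fun d : V × Fin 4 => (f d.1, d.2)) hj _ _ (hjoin (pr t).1 (pr t).2.1)
          (u, (pr t).2.2.1) (u, (pr t).2.2.2)
      rw [a1, a2]
    have h2 : ∀ d, sm e' (f u) t (f d.1, d.2) = (f (sm e u t d).1, (sm e u t d).2) := by
      intro d
      exact NAT_join (fun d : V × Fin 4 => (f d.1, d.2)) hj _ _ (hjoin (pr t).1 (pr t).2.1)
        (u, (pr t).2.2.1) (u, (pr t).2.2.2) d
    rw [h1, ih (sm e u t) (sm e' (f u) t) hf h2]

end PP
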