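import Pool.Agent.helper57.PP.Spec

/-!
# Row DSJ: even sets in the half bound in the half (MP_974a61_co)
-/

set_option autoImplicit false

namespace Pool.Agent.helper57.PP

open Finset

private lemma DSJ_bdG {W : Type} [DecidableEq W] {G : Finset (Finset W)} (h : IsSurface G) :
    bd G = ∅ := by
  rw [Finset.eq_empty_iff_forall_notMem]
  intro e he
  have h1 := h.two e (bd_subset_edges G he)
  have h2 := (mem_bd.1 he).2
  rw [h1] at h2
  exact absurd h2 (by decide)

theorem DSJ (hHS : HS_stmt) (hDC : DC_stmt) (hISO : ISO_stmt) (hZT : ZT_stmt) : DSJ_stmt := by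
  intro W _ G σ m p A hD hG hH
  obtain ⟨hs1, -⟩ := hHS W G σ m p A hD hG hH
  obtain ⟨-, hper, hinj, -⟩ := hISO W G σ m p hD hG
  obtain ⟨-, hzt, -⟩ := hZT W m p hG.m3 hper hinj
  have hno1 : ¬ G ⊆ A := by
    intro h
    obtain ⟨t, ht⟩ := hD.ne
    exact (hH.half t ht).1 (h ht) (h (hD.inv t ht))
  have hno2 : ¬ ∀ t ∈ G, t ∉ A := by
    intro h
    obtain ⟨t, ht⟩ := hD.ne
    exact h t ht ((hH.half t ht).2 (h _ (hD.inv t ht)))
  refine ⟨?_, ?_⟩
  · intro S hS hev
    obtain ⟨B, hBG, hbB⟩ := hD.J S (hS.trans (edges_mono hH.sub)) hev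
    have hB1 : bd (B \ A) ⊆ zt m p := by
      intro e he
      by_contra hne
      obtain ⟨hc, ho⟩ := mem_bd.1 he
      rw [cof_sdiff] at ho
      rcases hs1 e hc hne with h | h
      · rw [h, sdiff_empty] at ho
        have h1 : e ∈ bd B := mem_bd.2 ⟨hc, ho⟩
        rw [hbB] at h1
        have h2 := (edges_iff_cof_nonempty hc).1 (hS h1)
        rw [h] at h2
        exact absurd h2 Finset.not_nonempty_empty
      · rw [h, sdiff_eq_empty_iff_subset.2 (cof_mono hBG e)] at ho
        simp at ho
    have hB1e : EvenSet (bd (B \ A)) :=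
      evenSet_bd fun t ht => hD.surf.card3 t (hBG (sdiff_subset ht))
    rcases hzt _ hB1 hB1e with h0 | h1
    · rcases hDC W G hD.surf hD.conn (B \ A) (sdiff_subset.trans hBG) h0 with h | h
      · exact ⟨B, sdiff_eq_empty_iff_subset.1 h, hbB⟩
      · exfalso
        apply hno2
        intro t ht
        rw [← h] at ht
        exact (mem_sdiff.1 ht).2
    · have hbG := DSJ_bdG hD.surf
      have hbC : bd (G \ A) = zt m p := by
        rw [bd_sdiff hH.sub, hbG, hH.bdA]
        exact bot_symmDiff _
      have hsub : B \ A ⊆ G \ A := sdiff_subset_sdiff hBG (Finset.Subset.refl _)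
      have hb0 : bd ((G \ A) \ (B \ A)) = ∅ := by
        rw [bd_sdiff hsub, hbC, h1]
        exact symmDiff_self _
      rcases hDC W G hD.surf hD.conn _ (sdiff_subset.trans sdiff_subset) hb0 with h | h
      · refine ⟨G \ B, ?_, ?_⟩
        · intro t ht
          by_contra hA
          have h2 : t ∈ B \ A :=
            (sdiff_eq_empty_iff_subset.1 h) (mem_sdiff.2 ⟨(mem_sdiff.1 ht).1, hA⟩)
          exact (mem_sdiff.1 ht).2 (mem_sdiff.1 h2).1
        · rw [bd_sdiff hBG, hbG, hbB]
          exact bot_symmDiff _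
      · exfalso
        apply hno2
        intro t ht
        rw [← h] at ht
        exact (mem_sdiff.1 (mem_sdiff.1 ht).1).2
  · intro B hB hb
    rcases hDC W G hD.surf hD.conn B (hB.trans hH.sub) hb with h | h
    · exact h
    · exfalso
      apply hno1
      rw [← h]
      exact hB

end Pool.Agent.helper57.PP
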