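import Pool.Agent.helper36.PP.SpecB
import Pool.Agent.helper30.MP.P1U

/-!
# pp:P1U: the level functions as functions of `u` near `0`
-/

set_option autoImplicit false

open Complex Metric Set Filter Topology MeasureTheory MPS

noncomputable section

namespace PPS

theorem P1U : P1U_stmt := by
  intro n k _ f b g ψ ra R ε δ A G Q h
  have hc := h.su.cyc
  have hsys := h.sys
  have hpn := (h.su.mx 0).pn
  -- the cutoffs
  have hA0 : 0 ≤ A 0 := by
    have := hsys.a0
    have := h.d0
    linarith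
  have hball : ∀ q < Q, ball (0 : ℂ) (Real.exp (-A (q + 1))) ⊆ ball 0 (Real.exp (-A q)) := by
    intro q hq
    exact ball_subset_ball (Real.exp_le_exp.mpr (neg_le_neg (hsys.mono q hq)))
  have hb0 : ball (0 : ℂ) (Real.exp (-A 0)) ⊆ ball 0 1 := by
    refine ball_subset_ball ?_
    rw [← Real.exp_zero]
    exact Real.exp_le_exp.mpr (by linarith)
  have hr : ∀ q, 0 < Real.exp (-A q) := fun q => Real.exp_pos _
  -- holomorphy
  have hdiff : ∀ q ≤ Q, DifferentiableOn ℂ (G q) (ball 0 (Real.exp (-A q))) := by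
    intro q hq
    rcases Nat.eq_zero_or_pos q with h0 | h0
    · subst h0
      rw [hsys.g0]
      exact hpn.diff.mono hb0
    · exact hsys.diff q h0 hq
  -- avoidance
  have hav : ∀ q ≤ Q, ∀ u ∈ ball (0 : ℂ) (Real.exp (-A q)), u ≠ 0 → ∀ m, G q u ≠ b m := by
    intro q
    induction q with
    | zero =>
      intro _ u hu hu0 m
      rw [hsys.g0]
      exact hpn.av u (hb0 hu) hu0 m
    | succ q ih =>
      intro hq u hu hu0 m hm
      have h1 := (hsys.rel q hq u hu).1
      rw [hm, hc.step m] at h1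
      exact ih (by omega) u (hball q hq hu) hu0 (m + 1) h1.symm
  -- derivatives
  have hrel : ∀ q < Q, deriv (G q) 0 = fd f (G (q + 1) 0) * deriv (G (q + 1)) 0 := by
    intro q hq
    have h1 : HasDerivAt (G (q + 1)) (deriv (G (q + 1)) 0) 0 :=
      ((hdiff (q + 1) hq).differentiableAt
        (isOpen_ball.mem_nhds (mem_ball_self (hr (q + 1))))).hasDerivAt
    have h2 : HasDerivAt (fun u => f.eval (G (q + 1) u))
        (f.derivative.eval (G (q + 1) 0) * deriv (G (q + 1)) 0) 0 :=
      (f.hasDerivAt (G (q + 1) 0)).comp (0 : ℂ) h1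
    have h3 : (fun u => f.eval (G (q + 1) u)) =ᶠ[𝓝 (0 : ℂ)] G q := by
      filter_upwards [isOpen_ball.mem_nhds (mem_ball_self (hr (q + 1)))] with u hu
      exact (hsys.rel q hq u hu).1
    rw [← h3.deriv_eq, h2.deriv]
    rfl
  have hder : ∀ q ≤ Q, deriv (G q) 0 ≠ 0 := by
    intro q
    induction q with
    | zero =>
      intro _
      rw [hsys.g0]
      exact hpn.der
    | succ q ih =>
      intro hq h0
      apply ih (by omega)
      rw [hrel q hq, h0, mul_zero]
  -- the values at `0`
  have hval : ∀ q ≤ Q, G q 0 = b (-(q : ZMod k)) := hsys.val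
  refine ⟨?_, hder⟩
  intro q hqQ
  have hG := hdiff q hqQ
  choose H1 hH1 hH10 hH1e using fun i : ZMod k => MPS.P1U_simple (G q) _ (hr q) hG (b i)
    (fun u hu hu0 => hav q hqQ u hu hu0 i) (hder q hqQ)
  choose H2 hH2 hH21 hH20 hH2e using fun i : ZMod k => MPS.P1U_double (G q) _ (hr q) hG (b i)
    (fun u hu hu0 => hav q hqQ u hu hu0 i) (hder q hqQ)
  refine ⟨fun u => ∑ i, (H2 i u + g i * H1 i u), ?_, ?_, fun w hw => ?_⟩
  · exact DifferentiableOn.fun_sum fun i _ => (hH2 i).add ((differentiableOn_const _).mul (hH1 i))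
  · show ∑ i, (H2 i 0 + g i * H1 i 0) = 1
    rw [Finset.sum_eq_single (-(q : ZMod k))]
    · rw [hH10, hH21 _ (hval q hqQ)]
      ring
    · intro i _ hi
      rw [hH10, hH20 i (by
        rw [hval q hqQ]
        intro he
        exact hi (hc.inj he).symm)]
      ring
    · intro hi
      exact absurd (Finset.mem_univ _) hi
  · have hu := MPS.P1U_exp (A q) w hw
    have hu0 : Complex.exp w ≠ 0 := Complex.exp_ne_zero w
    unfold tau BB
    rw [MPS.P1U_GW G q (A q) hG w hw]
    show (Complex.exp w * deriv (G q) (Complex.exp w)) ^ 2 *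
      (∑ i, (1 / (G q (Complex.exp w) - b i) ^ 2 + g i / (G q (Complex.exp w) - b i))) =
      ∑ i, (H2 i (Complex.exp w) + g i * H1 i (Complex.exp w))
    rw [Finset.mul_sum]
    refine Finset.sum_congr rfl fun i _ => ?_
    rw [hH1e i _ hu hu0, hH2e i _ hu hu0]
    ring

end PPS
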